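import Mathlib
import Pool.Agent.H525.QF.Stm

/-!
# Project QF, task RR (helper236): duality for rank two lattices over `F_q[t]`
-/

set_option autoImplicit false

namespace Pool.Agent.H236.QF

open Polynomial
open Pool.Agent.H525.QF

namespace RR

variable {K : Type} [Field K]

/-- the bilinear form: the coefficient of `X ^ (k - 1)` of `τ y w` modulo `b` -/
noncomputable def bil (b τ : K[X]) (k c d : ℕ) :
    degreeLT K c →ₗ[K] degreeLT K d →ₗ[K] K :=
  LinearMap.mk₂ K (fun y w => (modByMonicHom b (τ * (y : K[X]) * (w : K[X]))).coeff (k - 1))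
    (fun y y' w => by
      simp only [Submodule.coe_add, mul_add, add_mul, map_add, coeff_add])
    (fun s y w => by
      simp only [Submodule.coe_smul, mul_smul_comm, smul_mul_assoc, map_smul, coeff_smul])
    (fun y w w' => by
      simp only [Submodule.coe_add, mul_add, map_add, coeff_add])
    (fun s y w => by
      simp only [Submodule.coe_smul, mul_smul_comm, map_smul, coeff_smul])

theorem bil_apply (b τ : K[X]) (k c d : ℕ) (y : degreeLT K c) (w : degreeLT K d) :
    bil b τ k c d y w = ((τ * (y : K[X]) * (w : K[X])) %ₘ b).coeff (k - 1) := rfl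

theorem bil_flip (b τ : K[X]) (k c d : ℕ) : (bil b τ k c d).flip = bil b τ k d c := by
  ext y w
  rw [LinearMap.flip_apply, bil_apply, bil_apply]
  congr 2
  ring

/-- reduction of one factor -/
theorem red_mul {b : K[X]} (hb : b.Monic) (u w : K[X]) : ((u %ₘ b) * w) %ₘ b = (u * w) %ₘ b := by
  refine modByMonic_eq_of_dvd_sub hb ⟨-(u /ₘ b) * w, ?_⟩
  have h := modByMonic_add_div u b
  have h2 : u %ₘ b = u - b * (u /ₘ b) := by
    rw [eq_sub_iff_add_eq]; exact h
  rw [h2]
  ring

/-- the criterion for a small degree -/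
theorem small_iff {b : K[X]} {k a : ℕ} (hb : b.Monic) (hk : b.natDegree = k) (hak : a ≤ k)
    {u : K[X]} (hu : u.degree < k) :
    u.degree < a ↔ ∀ w : K[X], w.degree < ((k - a : ℕ) : WithBot ℕ) →
      ((u * w) %ₘ b).coeff (k - 1) = 0 := by
  have hbd : b.degree = (k : WithBot ℕ) := by rw [degree_eq_natDegree hb.ne_zero, hk]
  constructor
  · intro hua w hw
    by_cases hu0 : u = 0
    · rw [hu0, zero_mul, zero_modByMonic, coeff_zero]
    by_cases hw0 : w = 0
    · rw [hw0, mul_zero, zero_modByMonic, coeff_zero]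
    rw [degree_eq_natDegree hu0] at hua
    rw [degree_eq_natDegree hw0] at hw
    have h1 : u.natDegree < a := by exact_mod_cast hua
    have h2 : w.natDegree < k - a := by exact_mod_cast hw
    have h3 : (u * w).natDegree = u.natDegree + w.natDegree := natDegree_mul hu0 hw0
    have h4 : (u * w) %ₘ b = u * w := by
      rw [modByMonic_eq_self_iff hb, hbd, degree_eq_natDegree (mul_ne_zero hu0 hw0), h3]
      exact_mod_cast (by omega : u.natDegree + w.natDegree < k)
    rw [h4]
    exact coeff_eq_zero_of_natDegree_lt (by omega)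
  · intro h
    by_contra hcon
    have hu0 : u ≠ 0 := by
      rintro rfl
      rw [degree_zero] at hcon
      exact hcon (WithBot.bot_lt_coe _)
    rw [degree_eq_natDegree hu0] at hcon hu
    have h1 : a ≤ u.natDegree := by
      by_contra h2
      exact hcon (by exact_mod_cast (not_le.mp h2))
    have h2 : u.natDegree < k := by exact_mod_cast hu
    have h3 := h (X ^ (k - 1 - u.natDegree)) (by
      rw [degree_X_pow]
      exact_mod_cast (by omega : k - 1 - u.natDegree < k - a))
    have h4 : (u * X ^ (k - 1 - u.natDegree)) %ₘ b = u * X ^ (k - 1 - u.natDegree) := by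
      rw [modByMonic_eq_self_iff hb, hbd, degree_mul, degree_X_pow, degree_eq_natDegree hu0]
      exact_mod_cast (by omega : u.natDegree + (k - 1 - u.natDegree) < k)
    rw [h4] at h3
    have h5 : k - 1 = u.natDegree + (k - 1 - u.natDegree) := by omega
    have h6 : (u * X ^ (k - 1 - u.natDegree)).coeff (k - 1) = u.leadingCoeff := by
      conv_lhs => rw [h5]
      rw [show u.natDegree + (k - 1 - u.natDegree) - u.natDegree = k - 1 - u.natDegree by omega,
        coeff_mul_X_pow]
      rfl
    rw [h6] at h3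
    exact hu0 (leadingCoeff_eq_zero.mp h3)

theorem mem_ker {b τ : K[X]} {k a c : ℕ} (hb : b.Monic) (hk : b.natDegree = k) (hk0 : 0 < k)
    (hak : a ≤ k) (y : degreeLT K c) :
    y ∈ LinearMap.ker (bil b τ k c (k - a)) ↔ ((τ * (y : K[X])) %ₘ b).degree < (a : WithBot ℕ) := by
  have hbd : b.degree = (k : WithBot ℕ) := by rw [degree_eq_natDegree hb.ne_zero, hk]
  have hb1 : b ≠ 1 := by
    rintro rfl
    rw [natDegree_one] at hk
    omega
  have hu : ((τ * (y : K[X])) %ₘ b).degree < (k : WithBot ℕ) := by
    rw [← hbd]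
    exact degree_modByMonic_lt _ hb
  rw [small_iff hb hk hak hu, LinearMap.mem_ker]
  constructor
  · intro h w hw
    have h1 := LinearMap.congr_fun h ⟨w, mem_degreeLT.mpr hw⟩
    rw [bil_apply] at h1
    rw [red_mul hb]
    exact h1
  · intro h
    ext w
    rw [bil_apply, ← red_mul hb]
    exact h w (mem_degreeLT.mp w.2)

variable [Fintype K]

omit [Fintype K] in
theorem red_eq {b τ : K[X]} {k a : ℕ} (hb : b.Monic) (hk : b.natDegree = k) (hak : a ≤ k)
    {x y : K[X]} (hx : x.degree < (a : WithBot ℕ)) (h : b ∣ x + τ * y) : (τ * y) %ₘ b = -x := by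
  have hbd : b.degree = (k : WithBot ℕ) := by rw [degree_eq_natDegree hb.ne_zero, hk]
  have h1 : (τ * y) %ₘ b = (-x) %ₘ b := by
    refine modByMonic_eq_of_dvd_sub hb ?_
    rw [sub_neg_eq_add, add_comm]
    exact h
  rw [h1, modByMonic_eq_self_iff hb, degree_neg, hbd]
  exact lt_of_lt_of_le hx (by exact_mod_cast hak)

theorem L_eq {b τ : K[X]} {k a c : ℕ} (hb : b.Monic) (hk : b.natDegree = k) (hk0 : 0 < k)
    (hak : a ≤ k) : L a c b τ = Nat.card (LinearMap.ker (bil b τ k c (k - a))) := by
  classical
  have hcard : L a c b τ = Nat.card {v : K[X] × K[X] //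
      (v.1.degree < (a : WithBot ℕ) ∧ v.2.degree < (c : WithBot ℕ)) ∧ b ∣ v.1 + τ * v.2} := by
    unfold L
    symm
    refine Nat.subtype_card _ (fun v => ?_)
    rw [Finset.mem_filter, Finset.mem_product, mem_lt, mem_lt]
  rw [hcard]
  refine Nat.card_congr
    { toFun := fun v => ⟨⟨v.1.2, mem_degreeLT.mpr v.2.1.2⟩, ?_⟩
      invFun := fun y => ⟨(-((τ * (y.1 : K[X])) %ₘ b), (y.1 : K[X])), ⟨?_, mem_degreeLT.mp y.1.2⟩, ?_⟩
      left_inv := ?_
      right_inv := ?_ }
  · rw [mem_ker hb hk hk0 hak]
    show ((τ * v.1.2) %ₘ b).degree < (a : WithBot ℕ)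
    rw [red_eq hb hk hak v.2.1.1 v.2.2, degree_neg]
    exact v.2.1.1
  · show (-((τ * (y.1 : K[X])) %ₘ b)).degree < (a : WithBot ℕ)
    rw [degree_neg]
    exact (mem_ker hb hk hk0 hak y.1).mp y.2
  · show b ∣ -((τ * (y.1 : K[X])) %ₘ b) + τ * (y.1 : K[X])
    refine ⟨(τ * (y.1 : K[X])) /ₘ b, ?_⟩
    have h := modByMonic_add_div (τ * (y.1 : K[X])) b
    linear_combination -h
  · intro v
    apply Subtype.ext
    apply Prod.ext
    · show -((τ * v.1.2) %ₘ b) = v.1.1
      rw [red_eq hb hk hak v.2.1.1 v.2.2, neg_neg]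
    · rfl
  · intro y
    rfl

omit [Fintype K] in
theorem finrank_degreeLT (n : ℕ) : Module.finrank K (degreeLT K n) = n := by
  rw [LinearEquiv.finrank_eq (degreeLTEquiv K n)]
  simp

instance (n : ℕ) : Module.Finite K (degreeLT K n) :=
  Module.Finite.equiv (degreeLTEquiv K n).symm

omit [Fintype K] in
/-- the rank of the transpose -/
theorem rank_flip {V W : Type} [AddCommGroup V] [Module K V] [AddCommGroup W] [Module K W]
    [Module.Finite K V] [Module.Finite K W] (T : V →ₗ[K] W →ₗ[K] K) :
    Module.finrank K (LinearMap.range T.flip) = Module.finrank K (LinearMap.range T) := by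
  have h1 : T.flip = (LinearMap.dualMap (M₂ := Module.Dual K W) T) ∘ₗ Module.Dual.eval K W := by
    ext w v
    rfl
  have h2 : LinearMap.range (Module.Dual.eval K W) = ⊤ :=
    LinearMap.range_eq_top.mpr (Module.bijective_dual_eval K W).2
  rw [h1, LinearMap.range_comp_of_range_eq_top _ h2,
    LinearMap.finrank_range_dualMap_eq_finrank_range]

theorem key {b τ : K[X]} {k a c : ℕ} (hb : b.Monic) (hk : b.natDegree = k)
    (hak : a ≤ k) (hck : c ≤ k) :
    L a c b τ * Fintype.card K ^ k = Fintype.card K ^ (a + c) * L (k - c) (k - a) b τ := by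
  rcases Nat.eq_zero_or_pos k with hk0 | hk0
  · subst hk0
    have ha : a = 0 := by omega
    have hc : c = 0 := by omega
    subst ha
    subst hc
    simp
  · have e1 := L_eq (τ := τ) (c := c) hb hk hk0 hak
    have e2 := L_eq (τ := τ) (a := k - c) (c := k - a) hb hk hk0 (Nat.sub_le k c)
    rw [show k - (k - c) = c by omega] at e2
    set T := bil b τ k c (k - a) with hT
    have e3 : bil b τ k (k - a) c = T.flip := (bil_flip b τ k c (k - a)).symm
    rw [e3] at e2
    have f1 := Module.natCard_eq_pow_finrank (K := K) (V := LinearMap.ker T)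
    have f2 := Module.natCard_eq_pow_finrank (K := K) (V := LinearMap.ker T.flip)
    rw [Nat.card_eq_fintype_card (α := K)] at f1 f2
    have g1 := T.finrank_range_add_finrank_ker
    have g2 := T.flip.finrank_range_add_finrank_ker
    rw [finrank_degreeLT] at g1 g2
    have g3 := rank_flip T
    rw [e1, e2, f1, f2, ← pow_add, ← pow_add]
    congr 1
    omega

end RR

open RR in
theorem t_rr : S_rr := by
  intro K _ _ b τ k a c hb hk hak hck
  exact key hb hk hak hck

end Pool.Agent.H236.QF
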