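import Mathlib
import Pool.Agent.H525.QF.Stm

/-!
# Project QF, task DEC (helper236): decomposition of the sum over coprime pairs
-/

set_option autoImplicit false

namespace Pool.Agent.H236.QF

open Polynomial
open Pool.Agent.H985.Chow (mob)
open Pool.Agent.H525.QF
open scoped Classical

namespace DEC

variable {K : Type} [Field K]

theorem mob_eq (F : K[X]) : mob F = if Squarefree F then
    (-1) ^ Multiset.card (UniqueFactorizationMonoid.factors F) else 0 := rfl

theorem mob_of_not {F : K[X]} (h : ¬ Squarefree F) : mob F = 0 := by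
  rw [mob_eq, if_neg h]

theorem mob_mul_cop {F G : K[X]} (h : IsCoprime F G) : mob (F * G) = mob F * mob G := by
  by_cases hF : Squarefree F
  · by_cases hG : Squarefree G
    · have hFG : Squarefree (F * G) := squarefree_mul_iff.2 ⟨h.isRelPrime, hF, hG⟩
      rw [mob_eq, mob_eq, mob_eq, if_pos hF, if_pos hG, if_pos hFG, ← pow_add]
      congr 1
      rw [Multiset.card_eq_card_of_rel (UniqueFactorizationMonoid.factors_mul hF.ne_zero hG.ne_zero),
        Multiset.card_add]
    · rw [mob_of_not hG, mob_of_not, mul_zero]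
      exact fun h' => hG (squarefree_mul_iff.1 h').2.2
  · rw [mob_of_not hF, mob_of_not, zero_mul]
    exact fun h' => hF (squarefree_mul_iff.1 h').2.1

theorem mob_one : mob (1 : K[X]) = 1 := by
  rw [mob_eq, if_pos squarefree_one]
  have h : UniqueFactorizationMonoid.factors (1 : K[X]) = 0 :=
    UniqueFactorizationMonoid.factors_one
  rw [h]
  simp

theorem mob_irr {P : K[X]} (hP : Irreducible P) : mob P = -1 := by
  rw [mob_eq, if_pos hP.squarefree]
  have h1 : Multiset.Rel Associated (UniqueFactorizationMonoid.factors P) (P ::ₘ 0) := by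
    refine UniqueFactorizationMonoid.factors_unique
      (fun x hx => UniqueFactorizationMonoid.irreducible_of_factor x hx) ?_ ?_
    · intro x hx
      rcases Multiset.mem_cons.mp hx with h | h
      · rw [h]; exact hP
      · exact absurd h (Multiset.notMem_zero x)
    · rw [Multiset.prod_cons, Multiset.prod_zero, mul_one]
      exact UniqueFactorizationMonoid.factors_prod hP.ne_zero
  rw [Multiset.card_eq_card_of_rel h1]
  simp

variable [Fintype K]

/-- a sum over the monic divisors, by degrees -/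
theorem sum_mdiv {f : K[X]} (hf : f ≠ 0) {M : ℕ} (hM : f.natDegree < M) (φ : K[X] → ℤ) :
    ∑ d ∈ mdiv f, φ d =
      ∑ k ∈ Finset.range M, ∑ d ∈ (mon K k).filter (fun d => d ∣ f), φ d := by
  rw [← Finset.sum_biUnion]
  · refine Finset.sum_congr ?_ (fun _ _ => rfl)
    ext d
    rw [mem_mdiv hf, Finset.mem_biUnion]
    constructor
    · rintro ⟨h1, h2⟩
      refine ⟨d.natDegree, ?_, ?_⟩
      · rw [Finset.mem_range]
        have := natDegree_le_of_dvd h2 hf
        omega
      · rw [Finset.mem_filter, mem_mon]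
        exact ⟨⟨h1, rfl⟩, h2⟩
    · rintro ⟨k, _, h⟩
      rw [Finset.mem_filter, mem_mon] at h
      exact ⟨h.1.1, h.2⟩
  · intro k _ l _ hkl
    rw [Function.onFun, Finset.disjoint_left]
    intro d hd hd'
    rw [Finset.mem_filter, mem_mon] at hd hd'
    exact hkl (hd.1.2.symm.trans hd'.1.2)

/-- the divisor sum of the Möbius function -/
theorem sum_mob {g : K[X]} (hg : g.Monic) :
    ∑ a ∈ mdiv g, mob a = if g = 1 then 1 else 0 := by
  split_ifs with h1
  · subst h1
    have : mdiv (1 : K[X]) = {1} := by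
      ext d
      rw [mem_mdiv one_ne_zero, Finset.mem_singleton]
      constructor
      · rintro ⟨h2, h3⟩
        exact h2.eq_one_of_isUnit (isUnit_of_dvd_one h3)
      · rintro rfl
        exact ⟨monic_one, dvd_refl _⟩
    rw [this, Finset.sum_singleton, mob_one]
  · have hg0 := hg.ne_zero
    have hnu : ¬ IsUnit g := fun h => h1 (hg.eq_one_of_isUnit h)
    obtain ⟨π, hπm, hπ, hπg⟩ := Polynomial.exists_monic_irreducible_factor g hnu
    have hs : ∑ a ∈ mdiv g, mob a = ∑ a ∈ (mdiv g).filter (fun a => Squarefree a), mob a := by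
      rw [Finset.sum_filter]
      refine Finset.sum_congr rfl (fun a _ => ?_)
      split_ifs with h
      · rfl
      · exact mob_of_not h
    rw [hs]
    refine Finset.sum_involution (fun a _ => if π ∣ a then a /ₘ π else π * a) ?_ ?_ ?_ ?_
    · intro a ha
      rw [Finset.mem_filter, mem_mdiv hg0] at ha
      obtain ⟨⟨ham, hag⟩, hasq⟩ := ha
      split_ifs with h
      · obtain ⟨c, rfl⟩ := h
        have h2 : (π * c) /ₘ π = c := by
          rw [mul_divByMonic_cancel_left c hπm]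
        rw [h2]
        have hc : IsCoprime π c := (squarefree_mul_iff.1 hasq).1.isCoprime
        rw [mob_mul_cop hc, mob_irr hπ]
        ring
      · have hc : IsCoprime π a := (hπ.coprime_iff_not_dvd).mpr h
        rw [mob_mul_cop hc, mob_irr hπ]
        ring
    · intro a ha hne
      rw [Finset.mem_filter, mem_mdiv hg0] at ha
      obtain ⟨⟨ham, hag⟩, hasq⟩ := ha
      split_ifs with h
      · obtain ⟨c, rfl⟩ := h
        have h2 : (π * c) /ₘ π = c := by
          rw [mul_divByMonic_cancel_left c hπm]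
        rw [h2]
        intro h3
        have hc0 : c ≠ 0 := right_ne_zero_of_mul ham.ne_zero
        have h4 : π = 1 := by
          have h5 : π * c = 1 * c := by rw [one_mul]; exact h3.symm
          exact mul_right_cancel₀ hc0 h5
        rw [h4] at hπ
        exact hπ.not_isUnit isUnit_one
      · intro h3
        exact h (h3 ▸ dvd_mul_right π a)
    · intro a ha
      rw [Finset.mem_filter, mem_mdiv hg0] at ha
      obtain ⟨⟨ham, hag⟩, hasq⟩ := ha
      rw [Finset.mem_filter, mem_mdiv hg0]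
      split_ifs with h
      · obtain ⟨c, rfl⟩ := h
        have h2 : (π * c) /ₘ π = c := by
          rw [mul_divByMonic_cancel_left c hπm]
        rw [h2]
        exact ⟨⟨hπm.of_mul_monic_left ham, (dvd_mul_left c π).trans hag⟩,
          hasq.squarefree_of_dvd (dvd_mul_left c π)⟩
      · have hc : IsCoprime π a := (hπ.coprime_iff_not_dvd).mpr h
        exact ⟨⟨hπm.mul ham, hc.mul_dvd hπg hag⟩,
          squarefree_mul_iff.2 ⟨hc.isRelPrime, hπ.squarefree, hasq⟩⟩
    · intro a ha
      rw [Finset.mem_filter, mem_mdiv hg0] at ha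
      obtain ⟨⟨ham, hag⟩, hasq⟩ := ha
      by_cases h : π ∣ a
      · obtain ⟨c, rfl⟩ := h
        have h2 : (π * c) /ₘ π = c := by
          rw [mul_divByMonic_cancel_left c hπm]
        have hc : IsCoprime π c := (squarefree_mul_iff.1 hasq).1.isCoprime
        have hnd : ¬ π ∣ c := (hπ.coprime_iff_not_dvd).mp hc
        simp only [dvd_mul_right, if_true, h2, hnd, if_false]
      · have h2 : (π * a) /ₘ π = a := by
          rw [mul_divByMonic_cancel_left a hπm]
        simp only [h, if_false, dvd_mul_right, if_true, h2]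

omit [Fintype K] in
/-- the monic greatest common divisor -/
theorem exists_gcd {x y : K[X]} (h : x ≠ 0 ∨ y ≠ 0) :
    ∃ D : K[X], D.Monic ∧ ∀ g, g ∣ D ↔ g ∣ x ∧ g ∣ y := by
  have h0 : EuclideanDomain.gcd x y ≠ 0 := by
    intro h0
    rw [EuclideanDomain.gcd_eq_zero_iff] at h0
    rcases h with h | h
    · exact h h0.1
    · exact h h0.2
  refine ⟨normalize (EuclideanDomain.gcd x y), Polynomial.monic_normalize h0, fun g => ?_⟩
  rw [dvd_normalize_iff]
  exact ⟨fun hg => ⟨hg.trans (EuclideanDomain.gcd_dvd_left x y),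
    hg.trans (EuclideanDomain.gcd_dvd_right x y)⟩, fun hg => EuclideanDomain.dvd_gcd hg.1 hg.2⟩

/-- the indicator of the coprime pairs -/
theorem sum_coprime {x y : K[X]} {n : ℕ} (h : x ≠ 0 ∨ y ≠ 0) (hx : x.natDegree ≤ n)
    (hy : y.natDegree ≤ n) :
    ∑ j ∈ Finset.range (n + 1), ∑ g ∈ (mon K j).filter (fun g => g ∣ x ∧ g ∣ y), mob g =
      if IsCoprime x y then 1 else 0 := by
  obtain ⟨D, hD, hDg⟩ := exists_gcd h
  have hDn : D.natDegree ≤ n := by
    have hDD := (hDg D).mp (dvd_refl D)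
    rcases h with h | h
    · exact (natDegree_le_of_dvd hDD.1 h).trans hx
    · exact (natDegree_le_of_dvd hDD.2 h).trans hy
  have h1 : ∀ j, (mon K j).filter (fun g => g ∣ x ∧ g ∣ y) =
      (mon K j).filter (fun g => g ∣ D) := fun j => by
    refine Finset.filter_congr (fun g _ => ?_)
    exact (hDg g).symm
  simp only [h1]
  rw [← sum_mdiv hD.ne_zero (Nat.lt_succ_of_le hDn) (fun g => mob g), sum_mob hD]
  have h2 : D = 1 ↔ IsCoprime x y := by
    constructor
    · rintro rfl
      rw [← isRelPrime_iff_isCoprime]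
      intro c hc hc'
      exact isUnit_of_dvd_one ((hDg c).mpr ⟨hc, hc'⟩)
    · intro hc
      have hDD := (hDg D).mp (dvd_refl D)
      exact hD.eq_one_of_isUnit (hc.isUnit_of_dvd' hDD.1 hDD.2)
  by_cases hc : IsCoprime x y
  · rw [if_pos hc, if_pos (h2.mpr hc)]
  · rw [if_neg hc, if_neg (fun h => hc (h2.mp h))]

/-- the divisors of `g ^ 4 * f` -/
theorem sum_split {g f : K[X]} (hg : g.Monic) (hgs : Squarefree g) (hf : f ≠ 0) (w : ℕ → ℤ) :
    ∑ d ∈ mdiv (g ^ 4 * f), mob d * w d.natDegree =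
      ∑ a ∈ mdiv g, mob a * ∑ b ∈ (mdiv f).filter (fun b => IsCoprime b g),
        mob b * w (a.natDegree + b.natDegree) := by
  have hg0 := hg.ne_zero
  have hgf : g ^ 4 * f ≠ 0 := mul_ne_zero (pow_ne_zero _ hg0) hf
  have hL : ∑ d ∈ mdiv (g ^ 4 * f), mob d * w d.natDegree =
      ∑ d ∈ (mdiv (g ^ 4 * f)).filter (fun d => Squarefree d), mob d * w d.natDegree := by
    rw [Finset.sum_filter]
    refine Finset.sum_congr rfl (fun a _ => ?_)
    split_ifs with h
    · rfl
    · rw [mob_of_not h, zero_mul]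
  have hR : ∀ a, ∑ b ∈ (mdiv f).filter (fun b => IsCoprime b g),
        mob b * w (a + b.natDegree) =
      ∑ b ∈ (mdiv f).filter (fun b => IsCoprime b g ∧ Squarefree b),
        mob b * w (a + b.natDegree) := fun a => by
    rw [← Finset.filter_filter, Finset.sum_filter (p := fun b => Squarefree b)]
    refine Finset.sum_congr rfl (fun b _ => ?_)
    split_ifs with h
    · rfl
    · rw [mob_of_not h, zero_mul]
  simp only [hR]
  rw [hL]
  simp only [Finset.mul_sum]
  rw [← Finset.sum_product']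
  symm
  refine Finset.sum_bij (fun (v : K[X] × K[X]) _ => v.1 * v.2) ?_ ?_ ?_ ?_
  · intro v hv
    rw [Finset.mem_product, mem_mdiv hg0, Finset.mem_filter, mem_mdiv hf] at hv
    obtain ⟨⟨h1, h2⟩, ⟨h3, h4⟩, h5, h6⟩ := hv
    rw [Finset.mem_filter, mem_mdiv hgf]
    have hc : IsCoprime v.1 v.2 := (h5.symm).of_isCoprime_of_dvd_left h2
    refine ⟨⟨h1.mul h3, mul_dvd_mul (h2.trans (dvd_pow_self g (by norm_num))) h4⟩, ?_⟩
    exact squarefree_mul_iff.2 ⟨hc.isRelPrime, hgs.squarefree_of_dvd h2, h6⟩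
  · intro v hv v' hv' hvv
    rw [Finset.mem_product, mem_mdiv hg0, Finset.mem_filter, mem_mdiv hf] at hv hv'
    obtain ⟨⟨h1, h2⟩, ⟨h3, h4⟩, h5, h6⟩ := hv
    obtain ⟨⟨h1', h2'⟩, ⟨h3', h4'⟩, h5', h6'⟩ := hv'
    have hvv' : v.1 * v.2 = v'.1 * v'.2 := hvv
    have e1 : v.1 ∣ v'.1 := by
      have hc : IsCoprime v.1 v'.2 := (h5'.symm).of_isCoprime_of_dvd_left h2
      exact hc.dvd_of_dvd_mul_right (hvv' ▸ dvd_mul_right v.1 v.2)
    have e2 : v'.1 ∣ v.1 := by
      have hc : IsCoprime v'.1 v.2 := (h5.symm).of_isCoprime_of_dvd_left h2'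
      exact hc.dvd_of_dvd_mul_right (hvv' ▸ dvd_mul_right v'.1 v'.2)
    have e3 : v.1 = v'.1 := eq_of_monic_of_associated h1 h1' (associated_of_dvd_dvd e1 e2)
    have e4 : v.2 = v'.2 := by
      rw [e3] at hvv'
      exact mul_left_cancel₀ h1'.ne_zero hvv'
    exact Prod.ext e3 e4
  · intro d hd
    rw [Finset.mem_filter, mem_mdiv hgf] at hd
    obtain ⟨⟨hdm, hdg⟩, hds⟩ := hd
    obtain ⟨a, ha, hag⟩ := exists_gcd (x := d) (y := g) (Or.inl hdm.ne_zero)
    have haa := (hag a).mp (dvd_refl a)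
    obtain ⟨b, hb⟩ := haa.1
    have hab : IsRelPrime a b := by
      rw [hb] at hds
      exact (squarefree_mul_iff.1 hds).1
    have hbs : Squarefree b := by
      rw [hb] at hds
      exact (squarefree_mul_iff.1 hds).2.2
    have hbg : IsCoprime b g := by
      rw [← isRelPrime_iff_isCoprime]
      intro c hc hc'
      have h1 : c ∣ a := (hag c).mpr ⟨hc.trans (hb ▸ dvd_mul_left b a), hc'⟩
      exact hab h1 hc
    have hbm : b.Monic := ha.of_mul_monic_left (hb ▸ hdm)
    have hbf : b ∣ f := by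
      have h1 : b ∣ g ^ 4 * f := (hb ▸ dvd_mul_left b a : b ∣ d).trans hdg
      exact (hbg.pow_right).dvd_of_dvd_mul_left h1
    refine ⟨(a, b), ?_, hb.symm⟩
    rw [Finset.mem_product, mem_mdiv hg0, Finset.mem_filter, mem_mdiv hf]
    exact ⟨⟨ha, haa.2⟩, ⟨hbm, hbf⟩, hbg, hbs⟩
  · intro v hv
    rw [Finset.mem_product, mem_mdiv hg0, Finset.mem_filter, mem_mdiv hf] at hv
    obtain ⟨⟨h1, h2⟩, ⟨h3, h4⟩, h5, h6⟩ := hv
    have hc : IsCoprime v.1 v.2 := (h5.symm).of_isCoprime_of_dvd_left h2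
    rw [mob_mul_cop hc, h1.natDegree_mul h3]
    ring

theorem step1 {v : K[X] × K[X]} {n : ℕ} (h3 : v.1 ≠ 0 ∨ v.2 ≠ 0) (h4 : v.1.natDegree ≤ n)
    (h5 : v.2.natDegree ≤ n) (S : ℤ) :
    (if IsCoprime v.1 v.2 then S else 0) = ∑ j ∈ Finset.range (n + 1),
        ∑ g ∈ mon K j, if g ∣ v.1 ∧ g ∣ v.2 then mob g * S else 0 := by
  have h6 := sum_coprime h3 h4 h5
  have h7 : (if IsCoprime v.1 v.2 then S else 0) = (if IsCoprime v.1 v.2 then 1 else 0) * S := by
    split_ifs
    · rw [one_mul]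
    · rw [zero_mul]
  rw [h7, ← h6, Finset.sum_mul]
  refine Finset.sum_congr rfl (fun j _ => ?_)
  rw [Finset.sum_mul, Finset.sum_filter]

theorem step2 {f g : K[X]} (hf : f ≠ 0) (hgm : g.Monic) (hgs : Squarefree g) {M : ℕ}
    (hM : f.natDegree < M) (w : ℕ → ℤ) :
    ∑ d ∈ mdiv (g ^ 4 * f), mob d * w d.natDegree =
      ∑ a ∈ mdiv g, mob a * ∑ k ∈ Finset.range M, w (a.natDegree + k) *
        ∑ b ∈ (mon K k).filter (fun b => IsCoprime b g), if b ∣ f then mob b else 0 := by
  rw [sum_split hgm hgs hf w]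
  refine Finset.sum_congr rfl (fun a _ => ?_)
  have h1 : ∑ b ∈ (mdiv f).filter (fun b => IsCoprime b g),
        mob b * w (a.natDegree + b.natDegree) =
      ∑ k ∈ Finset.range M, w (a.natDegree + k) *
        ∑ b ∈ (mon K k).filter (fun b => IsCoprime b g), if b ∣ f then mob b else 0 := by
    rw [Finset.sum_filter, sum_mdiv hf hM]
    refine Finset.sum_congr rfl (fun k _ => ?_)
    rw [Finset.mul_sum, Finset.sum_filter, Finset.sum_filter]
    refine Finset.sum_congr rfl (fun b hb => ?_)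
    have hbk := (mem_mon.mp hb).2
    rw [hbk]
    by_cases hd : b ∣ f
    · by_cases hc : IsCoprime b g
      · rw [if_pos hd, if_pos hc, if_pos hc, if_pos hd, mul_comm]
      · rw [if_pos hd, if_neg hc, if_neg hc]
    · by_cases hc : IsCoprime b g
      · rw [if_neg hd, if_pos hc, if_neg hd, mul_zero]
      · rw [if_neg hd, if_neg hc]
  rw [h1]

theorem step3 (B : Finset (K[X] × K[X])) (g : K[X]) (M : ℕ) (w : ℕ → ℤ) :
    ∑ v ∈ B, ∑ a ∈ mdiv g, mob a * ∑ k ∈ Finset.range M, w (a.natDegree + k) *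
        ∑ b ∈ (mon K k).filter (fun b => IsCoprime b g), (if b ∣ F v then mob b else 0) =
      ∑ a ∈ mdiv g, mob a * ∑ k ∈ Finset.range M, w (a.natDegree + k) *
        ∑ b ∈ (mon K k).filter (fun b => IsCoprime b g), mob b *
          (((B.filter (fun v => b ∣ F v)).card : ℕ) : ℤ) := by
  rw [Finset.sum_comm]
  refine Finset.sum_congr rfl (fun a _ => ?_)
  rw [← Finset.mul_sum, Finset.sum_comm]
  have h1 : ∀ k ∈ Finset.range M, ∑ v ∈ B, w (a.natDegree + k) *
        ∑ b ∈ (mon K k).filter (fun b => IsCoprime b g), (if b ∣ F v then mob b else 0) =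
      w (a.natDegree + k) *
        ∑ b ∈ (mon K k).filter (fun b => IsCoprime b g), mob b *
          (((B.filter (fun v => b ∣ F v)).card : ℕ) : ℤ) := by
    intro k _
    rw [← Finset.mul_sum, Finset.sum_comm]
    have h2 : ∀ b ∈ (mon K k).filter (fun b => IsCoprime b g),
        ∑ v ∈ B, (if b ∣ F v then mob b else 0) =
          mob b * (((B.filter (fun v => b ∣ F v)).card : ℕ) : ℤ) := by
      intro b _
      rw [← Finset.sum_filter, Finset.sum_const, nsmul_eq_mul, mul_comm]
    rw [Finset.sum_congr rfl h2]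
  rw [Finset.sum_congr rfl h1]

/-- the general decomposition -/
theorem general (Box : ℕ → Finset (K[X] × K[X]))
    (H1 : ∀ n, ∀ v ∈ Box n, F v ≠ 0 ∧ (F v).natDegree ≤ 4 * n + 1 ∧ (v.1 ≠ 0 ∨ v.2 ≠ 0) ∧
      v.1.natDegree ≤ n ∧ v.2.natDegree ≤ n)
    (H2 : ∀ n j (g : K[X]), g ∈ mon K j → j ≤ n → ∀ φ : K[X] × K[X] → ℤ,
      ∑ v ∈ (Box n).filter (fun v => g ∣ v.1 ∧ g ∣ v.2), φ v =
        ∑ v ∈ Box (n - j), φ (g * v.1, g * v.2)) (n : ℕ) (w : ℕ → ℤ) :
    ∑ v ∈ (Box n).filter (fun v => IsCoprime v.1 v.2),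
      ∑ d ∈ mdiv (F v), mob d * w d.natDegree =
    ∑ j ∈ Finset.range (n + 1), ∑ g ∈ mon K j, mob g * ∑ a ∈ mdiv g, mob a *
      ∑ k ∈ Finset.range (4 * n + 2), w (a.natDegree + k) *
        ∑ b ∈ (mon K k).filter (fun b => IsCoprime b g), mob b *
          ((((Box (n - j)).filter (fun v => b ∣ F v)).card : ℕ) : ℤ) := by
  have e1 : ∑ v ∈ (Box n).filter (fun v => IsCoprime v.1 v.2),
      ∑ d ∈ mdiv (F v), mob d * w d.natDegree =
      ∑ v ∈ Box n, ∑ j ∈ Finset.range (n + 1),
        ∑ g ∈ mon K j, if g ∣ v.1 ∧ g ∣ v.2 then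
          mob g * ∑ d ∈ mdiv (F v), mob d * w d.natDegree else 0 := by
    rw [Finset.sum_filter]
    refine Finset.sum_congr rfl (fun v hv => ?_)
    obtain ⟨_, _, h3, h4, h5⟩ := H1 n v hv
    exact step1 h3 h4 h5 _
  rw [e1, Finset.sum_comm]
  refine Finset.sum_congr rfl (fun j hj => ?_)
  rw [Finset.sum_comm]
  refine Finset.sum_congr rfl (fun g hg => ?_)
  have hjn : j ≤ n := by
    rw [Finset.mem_range] at hj
    omega
  have hgm := (mem_mon.mp hg).1
  have e3 := H2 n j g hg hjn (fun v => mob g * ∑ d ∈ mdiv (F v), mob d * w d.natDegree)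
  rw [← Finset.sum_filter, e3, ← Finset.mul_sum]
  by_cases hgs : Squarefree g
  swap
  · rw [mob_of_not hgs, zero_mul, zero_mul]
  have e2 : ∀ v ∈ Box (n - j), ∑ d ∈ mdiv (F (g * v.1, g * v.2)), mob d * w d.natDegree =
      ∑ a ∈ mdiv g, mob a * ∑ k ∈ Finset.range (4 * n + 2), w (a.natDegree + k) *
        ∑ b ∈ (mon K k).filter (fun b => IsCoprime b g), if b ∣ F v then mob b else 0 := by
    intro v hv
    obtain ⟨h1, h2, _, _, _⟩ := H1 (n - j) v hv
    have h3 : F (g * v.1, g * v.2) = g ^ 4 * F v := by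
      unfold F
      ring
    rw [h3]
    exact step2 h1 hgm hgs (by omega) w
  rw [Finset.sum_congr rfl e2, step3]

omit [Fintype K] in
theorem F_ne {v : K[X] × K[X]} (h : v.1 ≠ 0 ∨ v.2 ≠ 0) : F v ≠ 0 := by
  intro h0
  unfold F at h0
  have h1 : v.1 ^ 4 = -(X * v.2 ^ 4) := eq_neg_of_add_eq_zero_left h0
  by_cases hy : v.2 = 0
  · rw [hy, zero_pow (by norm_num), mul_zero, neg_zero] at h1
    have hx : v.1 = 0 := pow_eq_zero_iff (by norm_num) |>.mp h1
    rcases h with h | h
    · exact h hx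
    · exact h hy
  · have h2 := congrArg natDegree h1
    rw [natDegree_pow, natDegree_neg, natDegree_mul X_ne_zero (pow_ne_zero _ hy), natDegree_X,
      natDegree_pow] at h2
    omega

omit [Fintype K] in
theorem F_deg {v : K[X] × K[X]} {n : ℕ} (hx : v.1.natDegree ≤ n) (hy : v.2.natDegree ≤ n) :
    (F v).natDegree ≤ 4 * n + 1 := by
  unfold F
  refine (natDegree_add_le _ _).trans (max_le ?_ ?_)
  · rw [natDegree_pow]; omega
  · refine (natDegree_mul_le).trans ?_
    rw [natDegree_pow]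
    have := natDegree_X_le (R := K)
    omega

theorem natDegree_of_lt {n : ℕ} {p : K[X]} (h : p ∈ lt K (n + 1)) : p.natDegree ≤ n := by
  rw [mem_lt] at h
  exact natDegree_le_of_degree_le (Order.le_of_lt_succ (by exact_mod_cast h))

theorem natDegree_of_lt' {n : ℕ} {p : K[X]} (h : p ∈ lt K n) : p.natDegree ≤ n := by
  rw [mem_lt] at h
  exact natDegree_le_of_degree_le h.le

theorem mul_mem_lt {j m : ℕ} {g p : K[X]} (hg : g ∈ mon K j) :
    g * p ∈ lt K (j + m) ↔ p ∈ lt K m := by
  obtain ⟨hgm, hgj⟩ := mem_mon.mp hg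
  rw [mem_lt, mem_lt, degree_mul, degree_eq_natDegree hgm.ne_zero, hgj]
  by_cases hp : p = 0
  · rw [hp, degree_zero]
    simp
  · rw [degree_eq_natDegree hp]
    constructor
    · intro h
      have : j + p.natDegree < j + m := by exact_mod_cast h
      exact_mod_cast (by omega : p.natDegree < m)
    · intro h
      have : p.natDegree < m := by exact_mod_cast h
      exact_mod_cast (by omega : j + p.natDegree < j + m)

theorem mul_mem_mon {j m : ℕ} {g p : K[X]} (hg : g ∈ mon K j) :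
    g * p ∈ mon K (j + m) ↔ p ∈ mon K m := by
  obtain ⟨hgm, hgj⟩ := mem_mon.mp hg
  rw [mem_mon, mem_mon]
  constructor
  · rintro ⟨h1, h2⟩
    have h3 : p.Monic := hgm.of_mul_monic_left h1
    refine ⟨h3, ?_⟩
    rw [hgm.natDegree_mul h3, hgj] at h2
    omega
  · rintro ⟨h1, h2⟩
    refine ⟨hgm.mul h1, ?_⟩
    rw [hgm.natDegree_mul h1, hgj, h2]

omit [Fintype K] in
/-- the pairs divisible by `g` -/
theorem box_div {A B A' B' : Finset K[X]} {g : K[X]} (hg : g ≠ 0)
    (hA : ∀ p, g * p ∈ A ↔ p ∈ A') (hB : ∀ p, g * p ∈ B ↔ p ∈ B') (φ : K[X] × K[X] → ℤ) :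
    ∑ v ∈ (A ×ˢ B).filter (fun v => g ∣ v.1 ∧ g ∣ v.2), φ v =
      ∑ v ∈ A' ×ˢ B', φ (g * v.1, g * v.2) := by
  symm
  refine Finset.sum_bij (fun (v : K[X] × K[X]) _ => (g * v.1, g * v.2)) ?_ ?_ ?_ ?_
  · intro v hv
    rw [Finset.mem_product] at hv
    rw [Finset.mem_filter, Finset.mem_product]
    exact ⟨⟨(hA _).mpr hv.1, (hB _).mpr hv.2⟩, dvd_mul_right _ _, dvd_mul_right _ _⟩
  · intro v _ v' _ hvv
    have h1 : g * v.1 = g * v'.1 := congrArg Prod.fst hvv
    have h2 : g * v.2 = g * v'.2 := congrArg Prod.snd hvv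
    exact Prod.ext (mul_left_cancel₀ hg h1) (mul_left_cancel₀ hg h2)
  · intro v hv
    rw [Finset.mem_filter, Finset.mem_product] at hv
    obtain ⟨⟨h1, h2⟩, ⟨x, hx⟩, ⟨y, hy⟩⟩ := hv
    refine ⟨(x, y), ?_, ?_⟩
    · rw [Finset.mem_product]
      exact ⟨(hA x).mp (hx ▸ h1), (hB y).mp (hy ▸ h2)⟩
    · exact Prod.ext hx.symm hy.symm
  · intro v _
    rfl

end DEC

open DEC in
theorem t_dec : S_dec := by
  intro K _ _ n w
  refine general (fun n => (lt K (n + 1)) ×ˢ (mon K n)) ?_ ?_ n w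
  · intro n v hv
    rw [Finset.mem_product] at hv
    have hm := mem_mon.mp hv.2
    have hx := natDegree_of_lt hv.1
    exact ⟨F_ne (Or.inr hm.1.ne_zero), F_deg hx hm.2.le, Or.inr hm.1.ne_zero, hx, hm.2.le⟩
  · intro n j g hg hj φ
    refine box_div (mem_mon.mp hg).1.ne_zero (fun p => ?_) (fun p => ?_) φ
    · rw [show n + 1 = j + (n - j + 1) by omega]
      exact mul_mem_lt hg
    · have := mul_mem_mon (m := n - j) (p := p) hg
      rwa [show j + (n - j) = n by omega] at this

open DEC in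
theorem t_dec' : S_dec' := by
  intro K _ _ n w
  refine general (fun n => (mon K n) ×ˢ (lt K n)) ?_ ?_ n w
  · intro n v hv
    rw [Finset.mem_product] at hv
    have hm := mem_mon.mp hv.1
    have hy := natDegree_of_lt' hv.2
    exact ⟨F_ne (Or.inl hm.1.ne_zero), F_deg hm.2.le hy, Or.inl hm.1.ne_zero, hm.2.le, hy⟩
  · intro n j g hg hj φ
    refine box_div (mem_mon.mp hg).1.ne_zero (fun p => ?_) (fun p => ?_) φ
    · have := mul_mem_mon (m := n - j) (p := p) hg
      rwa [show j + (n - j) = n by omega] at this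
    · have := mul_mem_lt (m := n - j) (p := p) hg
      rwa [show j + (n - j) = n by omega] at this

end Pool.Agent.H236.QF
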